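import Pool.Agent.R962.CT.Line

/-!
# Consequences of boundedness of `d ^ m * pi1 m`
-/

set_option autoImplicit false

namespace Pool.Agent.R962.CT

open MeasureTheory ProbabilityTheory Filter Topology

section

variable {d k : ℕ} {p q : unitInterval}

/-- Generating function inequality: if `d ^ m * pi1 m ≤ 1` for all `m` then the parameters are not
much above the line `p d + q d ^ k = 1`. -/
theorem key (hd : 2 ≤ d) (hk : 2 ≤ k) (hq : (q : ℝ) * (d : ℝ) ^ k ≤ 1)
    (_hp : (p : ℝ) * d ≤ 1)
    (hb : ∀ m, (d : ℝ) ^ m * pi1 k p q m ≤ 1) {z : ℝ} (hz0 : 0 < z) (hz1 : z < 1) :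
    1 ≤ (∑' m, pi1 k p q m * (d * z) ^ m) *
      (1 - p * (d * z) - q * (d * z) ^ k + 4 * (p : ℝ) ^ 2) := by
  have hp0 := p.2.1
  have hq0 := q.2.1
  have hd0 : (2 : ℝ) ≤ d := by exact_mod_cast hd
  set y : ℝ := d * z with hy
  have hy0 : 0 < y := by positivity
  -- summability
  have hle : ∀ m, pi1 k p q m * y ^ m ≤ z ^ m := by
    intro m
    rw [hy, mul_pow]
    calc pi1 k p q m * ((d : ℝ) ^ m * z ^ m) = ((d : ℝ) ^ m * pi1 k p q m) * z ^ m := by ring
      _ ≤ 1 * z ^ m := mul_le_mul_of_nonneg_right (hb m) (by positivity)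
      _ = z ^ m := one_mul _
  have hgeo : Summable (fun m : ℕ => z ^ m) := summable_geometric_of_lt_one hz0.le hz1
  have hsU : Summable (fun m => pi1 k p q m * y ^ m) :=
    Summable.of_nonneg_of_le (fun m => mul_nonneg (pi1_nonneg _ _ _ _) (by positivity)) hle hgeo
  have hsJ : ∀ i, Summable (fun m => JJ k p q i m * y ^ (m + i)) := by
    intro i
    refine Summable.of_nonneg_of_le (fun m => mul_nonneg (JJ_nonneg _ _ _ _ _) (by positivity))
      (fun m => ?_) ((summable_nat_add_iff i).2 hsU)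
    exact mul_le_mul_of_nonneg_right (JJ_le _ _ _ _ _) (by positivity)
  set U : ℝ := ∑' m, pi1 k p q m * y ^ m with hU
  have hU1 : 1 ≤ U := by
    have := hsU.le_tsum 0 (fun m _ => mul_nonneg (pi1_nonneg _ _ _ _) (by positivity))
    rw [pi1_zero] at this
    simpa using this
  let H : ℕ → ℝ := fun i => ∑' m, JJ k p q i m * y ^ (m + i)
  have hH0 : ∀ i, 0 ≤ H i := fun i =>
    tsum_nonneg (fun m => mul_nonneg (JJ_nonneg _ _ _ _ _) (by positivity))
  have hHU : ∀ i, H i ≤ U := by
    intro i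
    calc H i ≤ ∑' m, pi1 k p q (m + i) * y ^ (m + i) :=
          (hsJ i).tsum_le_tsum (fun m => mul_le_mul_of_nonneg_right (JJ_le _ _ _ _ _)
            (by positivity)) ((summable_nat_add_iff i).2 hsU)
      _ ≤ U := by
        rw [hU, ← hsU.sum_add_tsum_nat_add i]
        have : 0 ≤ ∑ m ∈ Finset.range i, pi1 k p q m * y ^ m :=
          Finset.sum_nonneg (fun m _ => mul_nonneg (pi1_nonneg _ _ _ _) (by positivity))
        linarith
  -- the two point functions
  have hHrec : ∀ i, 1 ≤ i → i ≤ k → H i ≤ p * y * H (i - 1) + q * y ^ i * H (k - i) := by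
    intro i hi hik
    -- pointwise, with the indicator of `k ≤ m + i`
    have hpt : ∀ m, JJ k p q i m * y ^ (m + i) ≤ p * y * (JJ k p q (i - 1) m * y ^ (m + (i - 1))) +
        (if k ≤ m + i then q * y ^ i * (JJ k p q (k - i) (m + i - k) * y ^ (m + i - k + (k - i)))
          else 0) := by
      intro m
      have e1 : y ^ (m + i) = y * y ^ (m + (i - 1)) := by
        rw [← pow_succ']; congr 1; omega
      split_ifs with h
      · have e2 : y ^ (m + i) = y ^ i * y ^ (m + i - k + (k - i)) := by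
          rw [← pow_add]; congr 1; omega
        calc JJ k p q i m * y ^ (m + i) ≤ (p * JJ k p q (i - 1) m +
              q * JJ k p q (k - i) (m + i - k)) * y ^ (m + i) :=
              mul_le_mul_of_nonneg_right (JJ_large (by omega) p q hi hik h) (by positivity)
          _ = p * JJ k p q (i - 1) m * y ^ (m + i) +
              q * JJ k p q (k - i) (m + i - k) * y ^ (m + i) := by ring
          _ = _ := by
            nth_rewrite 1 [e1]
            rw [e2]
            ring
      · calc JJ k p q i m * y ^ (m + i) ≤ (p * JJ k p q (i - 1) m) * y ^ (m + i) :=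
              mul_le_mul_of_nonneg_right (JJ_small (by omega) p q hi (by omega)) (by positivity)
          _ = _ := by rw [e1]; ring
    have hs2 : Summable (fun m => if k ≤ m + i then q * y ^ i *
        (JJ k p q (k - i) (m + i - k) * y ^ (m + i - k + (k - i))) else 0) := by
      rw [← summable_nat_add_iff (k - i)]
      have : (fun m => if k ≤ m + (k - i) + i then (q : ℝ) * y ^ i *
          (JJ k p q (k - i) (m + (k - i) + i - k) * y ^ (m + (k - i) + i - k + (k - i))) else 0) =
          fun m => (q : ℝ) * y ^ i * (JJ k p q (k - i) m * y ^ (m + (k - i))) := by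
        funext m
        rw [if_pos (by omega)]
        have : m + (k - i) + i - k = m := by omega
        rw [this]
      rw [this]
      exact (hsJ (k - i)).mul_left _
    have hs2' : ∑' m, (if k ≤ m + i then (q : ℝ) * y ^ i *
        (JJ k p q (k - i) (m + i - k) * y ^ (m + i - k + (k - i))) else 0) =
        q * y ^ i * H (k - i) := by
      rw [← hs2.sum_add_tsum_nat_add (k - i)]
      have h0 : ∑ m ∈ Finset.range (k - i), (if k ≤ m + i then (q : ℝ) * y ^ i *
        (JJ k p q (k - i) (m + i - k) * y ^ (m + i - k + (k - i))) else 0) = 0 := by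
        apply Finset.sum_eq_zero
        intro m hm
        rw [Finset.mem_range] at hm
        rw [if_neg (by omega)]
      rw [h0, zero_add]
      have : (fun m => if k ≤ m + (k - i) + i then (q : ℝ) * y ^ i *
          (JJ k p q (k - i) (m + (k - i) + i - k) * y ^ (m + (k - i) + i - k + (k - i))) else 0) =
          fun m => (q : ℝ) * y ^ i * (JJ k p q (k - i) m * y ^ (m + (k - i))) := by
        funext m
        rw [if_pos (by omega)]
        have : m + (k - i) + i - k = m := by omega
        rw [this]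
      rw [this, tsum_mul_left]
    calc H i ≤ ∑' m, (p * y * (JJ k p q (i - 1) m * y ^ (m + (i - 1))) +
        (if k ≤ m + i then q * y ^ i * (JJ k p q (k - i) (m + i - k) * y ^ (m + i - k + (k - i)))
          else 0)) := (hsJ i).tsum_le_tsum hpt (((hsJ (i - 1)).mul_left _).add hs2)
      _ = p * y * H (i - 1) + q * y ^ i * H (k - i) := by
        rw [((hsJ (i - 1)).mul_left _).tsum_add hs2, hs2', tsum_mul_left]
  -- bound for `H (k - 1)`
  have hdk : (d : ℝ) ^ k ≥ 4 := by
    calc (4 : ℝ) = 2 ^ 2 := by norm_num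
      _ ≤ (d : ℝ) ^ 2 := by gcongr
      _ ≤ (d : ℝ) ^ k := by gcongr; linarith
  have hq4 : (q : ℝ) ≤ 1 / 4 := by
    nlinarith
  have hyd : y ≤ d := by
    rw [hy]; nlinarith
  have hqy : ∀ i ≤ k, (q : ℝ) * y ^ i ≤ 1 := by
    intro i hi
    calc (q : ℝ) * y ^ i ≤ q * (d : ℝ) ^ i := by gcongr
      _ ≤ q * (d : ℝ) ^ k := by
        have : (d : ℝ) ^ i ≤ (d : ℝ) ^ k := pow_le_pow_right₀ (by linarith) hi
        gcongr
      _ ≤ 1 := hq
  have hbound : H (k - 1) ≤ 4 * (p * d) * U := by
    have h1 := hHrec (k - 1) (by omega) (by omega)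
    have h2 := hHrec 1 le_rfl (by omega)
    have e1 : k - (k - 1) = 1 := by omega
    rw [e1] at h1
    have hA : p * y * H (k - 1 - 1) ≤ p * d * U := by
      have := hHU (k - 1 - 1)
      have := hH0 (k - 1 - 1)
      gcongr
    have hB : p * y * H (1 - 1) ≤ p * d * U := by
      have := hHU (1 - 1)
      have := hH0 (1 - 1)
      gcongr
    have hC : H 1 ≤ p * d * U + q * y ^ 1 * H (k - 1) := by linarith
    have hD : q * y ^ (k - 1) * H 1 ≤ q * y ^ (k - 1) * (p * d * U + q * y ^ 1 * H (k - 1)) := by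
      gcongr
    have hE : q * y ^ (k - 1) * (q * y ^ 1 * H (k - 1)) ≤ 1 / 4 * H (k - 1) := by
      have e2 : q * y ^ (k - 1) * (q * y ^ 1 * H (k - 1)) = (q * y ^ k) * q * H (k - 1) := by
        have : y ^ k = y ^ (k - 1) * y ^ 1 := by rw [← pow_add]; congr 1; omega
        rw [this]; ring
      rw [e2]
      have h3 := hqy k le_rfl
      have h4 := hH0 (k - 1)
      have h5 : (q * y ^ k) * q ≤ 1 / 4 := by
        calc (q * y ^ k) * q ≤ 1 * q := mul_le_mul_of_nonneg_right h3 hq0
          _ ≤ 1 / 4 := by linarith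
      gcongr
    have hF : q * y ^ (k - 1) * (p * d * U) ≤ 1 * (p * d * U) := by
      have h3 := hqy (k - 1) (by omega)
      gcongr
    have hG : q * y ^ (k - 1) * (p * d * U + q * y ^ 1 * H (k - 1)) =
        q * y ^ (k - 1) * (p * d * U) + q * y ^ (k - 1) * (q * y ^ 1 * H (k - 1)) := by ring
    have hI : 0 ≤ (p : ℝ) * d * U := by positivity
    rw [hG] at hD
    linarith
  -- main recursion
  have hmain : U * (1 - p * y - q * y ^ k) = 1 - p * q * y * H (k - 1) := by
    have hsplit : U = ∑ m ∈ Finset.range k, pi1 k p q m * y ^ m +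
        ∑' m, pi1 k p q (m + k) * y ^ (m + k) := (hsU.sum_add_tsum_nat_add k).symm
    have hsmall : ∑ m ∈ Finset.range k, pi1 k p q m * y ^ m =
        1 + p * y * ∑ m ∈ Finset.range (k - 1), pi1 k p q m * y ^ m := by
      obtain ⟨k', rfl⟩ : ∃ k', k = k' + 1 := ⟨k - 1, by omega⟩
      rw [Finset.sum_range_succ', Nat.add_sub_cancel, pi1_zero, Finset.mul_sum]
      simp only [pow_zero, mul_one]
      rw [add_comm]
      congr 1
      apply Finset.sum_congr rfl
      intro m hm
      rw [Finset.mem_range] at hm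
      rw [pi1_small (by omega) p q (by omega), pow_succ]
      ring
    have htail : ∑' m, pi1 k p q (m + k) * y ^ (m + k) =
        p * y * (∑' m, pi1 k p q (m + (k - 1)) * y ^ (m + (k - 1))) + q * y ^ k * U -
          p * q * y * H (k - 1) := by
      have hs3 := (summable_nat_add_iff (k - 1)).2 hsU
      rw [hU, ← tsum_mul_left, ← tsum_mul_left, ← tsum_mul_left,
        ← (hs3.mul_left (p * y)).tsum_add (hsU.mul_left (q * y ^ k)),
        ← ((hs3.mul_left (p * y)).add (hsU.mul_left (q * y ^ k))).tsum_sub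
          ((hsJ (k - 1)).mul_left (p * q * y))]
      apply tsum_congr
      intro m
      rw [pi1_rec (by omega) p q m]
      have e1 : y ^ (m + k) = y * y ^ (m + (k - 1)) := by
        rw [← pow_succ']; congr 1; omega
      have e2 : y ^ (m + k) = y ^ k * y ^ m := by rw [← pow_add]; congr 1; omega
      calc (p * pi1 k p q (m + (k - 1)) + q * pi1 k p q m - p * q * JJ k p q (k - 1) m) *
            y ^ (m + k) = p * pi1 k p q (m + (k - 1)) * y ^ (m + k) +
              q * pi1 k p q m * y ^ (m + k) - p * q * JJ k p q (k - 1) m * y ^ (m + k) := by ring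
        _ = p * pi1 k p q (m + (k - 1)) * (y * y ^ (m + (k - 1))) +
              q * pi1 k p q m * (y ^ k * y ^ m) -
                p * q * JJ k p q (k - 1) m * (y * y ^ (m + (k - 1))) := by
            rw [← e1, ← e2]
        _ = _ := by ring
    have hsplit2 : U = ∑ m ∈ Finset.range (k - 1), pi1 k p q m * y ^ m +
        ∑' m, pi1 k p q (m + (k - 1)) * y ^ (m + (k - 1)) := (hsU.sum_add_tsum_nat_add (k - 1)).symm
    have h9 : U = 1 + p * y * U + q * y ^ k * U - p * q * y * H (k - 1) := by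
      calc U = ∑ m ∈ Finset.range k, pi1 k p q m * y ^ m +
            ∑' m, pi1 k p q (m + k) * y ^ (m + k) := hsplit
        _ = 1 + p * y * (∑ m ∈ Finset.range (k - 1), pi1 k p q m * y ^ m +
            ∑' m, pi1 k p q (m + (k - 1)) * y ^ (m + (k - 1))) + q * y ^ k * U -
            p * q * y * H (k - 1) := by rw [hsmall, htail]; ring
        _ = _ := by rw [← hsplit2]
    linarith
  have hlast : p * q * y * H (k - 1) ≤ U * (4 * (p : ℝ) ^ 2) := by
    have h1 : q * y * (d : ℝ) ≤ 1 := by
      calc q * y * (d : ℝ) ≤ q * d * d := by gcongr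
        _ = q * (d : ℝ) ^ 2 := by ring
        _ ≤ q * (d : ℝ) ^ k := by
          have : (d : ℝ) ^ 2 ≤ (d : ℝ) ^ k := pow_le_pow_right₀ (by linarith) hk
          gcongr
        _ ≤ 1 := hq
    calc p * q * y * H (k - 1) ≤ p * q * y * (4 * (p * d) * U) := by gcongr
      _ = (q * y * d) * (4 * (p : ℝ) ^ 2 * U) := by ring
      _ ≤ 1 * (4 * (p : ℝ) ^ 2 * U) := by
        have : 0 ≤ 4 * (p : ℝ) ^ 2 * U := by positivity
        gcongr
      _ = _ := by ring
  have : U * (1 - p * y - q * y ^ k + 4 * (p : ℝ) ^ 2) =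
      U * (1 - p * y - q * y ^ k) + U * (4 * (p : ℝ) ^ 2) := by ring
  rw [this, hmain]
  linarith

/-- If the expected size of each generation is at most one then `p d + q d ^ k ≤ 1 + 4 p²`. -/
theorem not_above (hd : 2 ≤ d) (hk : 2 ≤ k) (hq : (q : ℝ) * (d : ℝ) ^ k ≤ 1)
    (hp : (p : ℝ) * d ≤ 1) (hb : ∀ m, (d : ℝ) ^ m * pi1 k p q m ≤ 1) :
    (p : ℝ) * d + q * (d : ℝ) ^ k ≤ 1 + 4 * (p : ℝ) ^ 2 := by
  have hd0 : (2 : ℝ) ≤ d := by exact_mod_cast hd
  have hlim : Tendsto (fun z : ℝ => 1 - (p : ℝ) * ((d : ℝ) * z) - (q : ℝ) * ((d : ℝ) * z) ^ k +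
      4 * (p : ℝ) ^ 2) (𝓝[<] 1)
      (𝓝 (1 - (p : ℝ) * ((d : ℝ) * 1) - (q : ℝ) * ((d : ℝ) * 1) ^ k + 4 * (p : ℝ) ^ 2)) := by
    apply Tendsto.mono_left _ nhdsWithin_le_nhds
    apply Continuous.tendsto
    fun_prop
  have hnn : ∀ᶠ z : ℝ in 𝓝[<] (1 : ℝ), 0 ≤ 1 - (p : ℝ) * ((d : ℝ) * z) -
      (q : ℝ) * ((d : ℝ) * z) ^ k + 4 * (p : ℝ) ^ 2 := by
    have h1 : ∀ᶠ z : ℝ in 𝓝[<] (1 : ℝ), 0 < z :=
      nhdsWithin_le_nhds (eventually_gt_nhds one_pos)
    filter_upwards [h1, self_mem_nhdsWithin] with z hz0 hz1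
    have h2 := key hd hk hq hp hb hz0 hz1
    have h3 : 0 ≤ ∑' m, pi1 k p q m * ((d : ℝ) * z) ^ m :=
      tsum_nonneg (fun m => mul_nonneg (pi1_nonneg _ _ _ _) (by positivity))
    by_contra hcon
    push Not at hcon
    nlinarith [mul_nonneg h3 (by linarith : 0 ≤ -(1 - (p : ℝ) * ((d : ℝ) * z) -
      (q : ℝ) * ((d : ℝ) * z) ^ k + 4 * (p : ℝ) ^ 2))]
  have := ge_of_tendsto hlim hnn
  simp only [mul_one] at this
  linarith

/-- Below the line of the improved path count the generation sizes are summable. -/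
theorem summable_below (hk : 2 ≤ k)
    (h : (p : ℝ) * d + q * (1 - (p : ℝ) ^ k) * (d : ℝ) ^ k < 1) :
    Summable (fun m => (d : ℝ) ^ m * pi1 k p q m) := by
  have hp0 := p.2.1
  have hp1 := p.2.2
  have hq0 := q.2.1
  set c : ℝ := (p : ℝ) * d + q * (1 - (p : ℝ) ^ k) * (d : ℝ) ^ k with hc
  have hpk : 0 ≤ 1 - (p : ℝ) ^ k := by
    have : (p : ℝ) ^ k ≤ 1 := pow_le_one₀ hp0 hp1
    linarith
  have hnn : ∀ m, 0 ≤ (d : ℝ) ^ m * pi1 k p q m := fun m =>
    mul_nonneg (by positivity) (pi1_nonneg _ _ _ _)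
  apply summable_of_sum_range_le (c := 1 / (1 - c)) hnn
  intro N
  set S : ℕ → ℝ := fun N => ∑ m ∈ Finset.range N, (d : ℝ) ^ m * pi1 k p q m with hS
  have hmono : Monotone S := by
    intro a b hab
    exact Finset.sum_le_sum_of_subset_of_nonneg (Finset.range_subset_range.2 hab)
      (fun m _ _ => hnn m)
  -- one step bound
  have hstep : ∀ m : ℕ, (d : ℝ) ^ (m + 1) * pi1 k p q (m + 1) ≤
      (p : ℝ) * d * ((d : ℝ) ^ m * pi1 k p q m) +
      (if k ≤ m + 1 then q * (1 - (p : ℝ) ^ k) * (d : ℝ) ^ k *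
        ((d : ℝ) ^ (m + 1 - k) * pi1 k p q (m + 1 - k)) else 0) := by
    intro m
    split_ifs with hm
    · obtain ⟨n, hn⟩ : ∃ n, n + k = m + 1 := ⟨m + 1 - k, by omega⟩
      have h1 := pi1_upper (k := k) (by omega) p q n
      have e1 : n + (k - 1) = m := by omega
      have e2 : m + 1 - k = n := by omega
      rw [hn, e1] at h1
      rw [e2]
      have e3 : (d : ℝ) ^ (m + 1) = (d : ℝ) ^ k * (d : ℝ) ^ n := by
        rw [← pow_add]; congr 1; omega
      calc (d : ℝ) ^ (m + 1) * pi1 k p q (m + 1) ≤ (d : ℝ) ^ (m + 1) * (p * pi1 k p q m +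
            q * (1 - (p : ℝ) ^ k) * pi1 k p q n) := mul_le_mul_of_nonneg_left h1 (by positivity)
        _ = (d : ℝ) ^ (m + 1) * (p * pi1 k p q m) + (d : ℝ) ^ (m + 1) *
            (q * (1 - (p : ℝ) ^ k) * pi1 k p q n) := by ring
        _ = _ := by
          nth_rewrite 2 [e3]
          rw [pow_succ]
          ring
    · rw [pi1_small (by omega) p q (by omega), pow_succ]
      apply le_of_eq
      ring
  have hS1 : ∀ N, S (N + 1) ≤ 1 + c * S (N + 1) := by
    intro N
    have hsum : S (N + 1) = 1 + ∑ m ∈ Finset.range N, (d : ℝ) ^ (m + 1) * pi1 k p q (m + 1) := by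
      rw [hS]
      simp only
      rw [Finset.sum_range_succ', pi1_zero]
      simp only [pow_zero, mul_one]
      ring
    have hb1 : ∑ m ∈ Finset.range N, (d : ℝ) ^ (m + 1) * pi1 k p q (m + 1) ≤
        (p : ℝ) * d * S N + q * (1 - (p : ℝ) ^ k) * (d : ℝ) ^ k * S N := by
      calc ∑ m ∈ Finset.range N, (d : ℝ) ^ (m + 1) * pi1 k p q (m + 1) ≤
            ∑ m ∈ Finset.range N, ((p : ℝ) * d * ((d : ℝ) ^ m * pi1 k p q m) +
            (if k ≤ m + 1 then q * (1 - (p : ℝ) ^ k) * (d : ℝ) ^ k *
              ((d : ℝ) ^ (m + 1 - k) * pi1 k p q (m + 1 - k)) else 0)) :=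
            Finset.sum_le_sum (fun m _ => hstep m)
        _ = (p : ℝ) * d * S N + ∑ m ∈ Finset.range N, (if k ≤ m + 1 then q * (1 - (p : ℝ) ^ k) *
            (d : ℝ) ^ k * ((d : ℝ) ^ (m + 1 - k) * pi1 k p q (m + 1 - k)) else 0) := by
            rw [Finset.sum_add_distrib, ← Finset.mul_sum]
        _ ≤ _ := by
            gcongr
            rw [← Finset.sum_filter, ← Finset.mul_sum]
            gcongr
            rw [hS]
            simp only
            calc ∑ m ∈ Finset.range N with k ≤ m + 1, (d : ℝ) ^ (m + 1 - k) *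
                  pi1 k p q (m + 1 - k) = ∑ n ∈ ((Finset.range N).filter
                  (fun m => k ≤ m + 1)).image (fun m => m + 1 - k), (d : ℝ) ^ n * pi1 k p q n := by
                  rw [Finset.sum_image]
                  intro a ha b hb hab
                  simp only [Finset.coe_filter, Finset.mem_range, Set.mem_ofPred_eq] at ha hb
                  simp only at hab
                  omega
              _ ≤ _ := by
                  apply Finset.sum_le_sum_of_subset_of_nonneg
                  · intro n hn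
                    simp only [Finset.mem_image, Finset.mem_filter, Finset.mem_range] at hn ⊢
                    obtain ⟨m, ⟨hm1, hm2⟩, rfl⟩ := hn
                    omega
                  · exact fun m _ _ => hnn m
    have hSN : S N ≤ S (N + 1) := hmono (Nat.le_succ N)
    have hSN0 : 0 ≤ S N := Finset.sum_nonneg (fun m _ => hnn m)
    have hc0 : 0 ≤ c := by
      rw [hc]
      positivity
    calc S (N + 1) = 1 + ∑ m ∈ Finset.range N, (d : ℝ) ^ (m + 1) * pi1 k p q (m + 1) := hsum
      _ ≤ 1 + c * S N := by rw [hc]; linarith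
      _ ≤ 1 + c * S (N + 1) := by gcongr
  have h1c : 0 < 1 - c := by linarith
  calc S N ≤ S (N + 1) := hmono (Nat.le_succ N)
    _ ≤ 1 / (1 - c) := by
      rw [le_div_iff₀ h1c]
      have := hS1 N
      linarith

end

end Pool.Agent.R962.CT
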