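import Mathlib

/-!
# Two-length oriented percolation on the `d`-ary tree: definitions
-/

set_option autoImplicit false

namespace Pool.Agent.R962.CT

open MeasureTheory ProbabilityTheory

/-- Vertices of the rooted `d`-ary tree: the root is `[]` and the children of `v` are the lists
`i :: v`, `i : Fin d`. The descendants of `v` exactly `k` generations below `v` are the lists
`u ++ v` with `u.length = k`. -/
abbrev Vert (d : ℕ) : Type := List (Fin d)

/-- Edges, labelled by their lower end point `w`: `(w, false)` is the edge of length `1` which ends
at `w`, `(w, true)` is the edge of length `k` which ends at `w`. -/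
abbrev Edge (d : ℕ) : Type := Vert d × Bool

/-- A configuration says which edges are open. -/
abbrev Conf (d : ℕ) : Type := Edge d → Bool

/-- `Reach k ω w`: there is an oriented path of open edges (of lengths `1` and `k`) from the root to
the vertex `w`. -/
inductive Reach {d : ℕ} (k : ℕ) (ω : Conf d) : Vert d → Prop
  | root : Reach k ω []
  | unit (i : Fin d) (v : Vert d) : Reach k ω v → ω (i :: v, false) = true → Reach k ω (i :: v)
  | long (u v : Vert d) : u.length = k → Reach k ω v → ω (u ++ v, true) = true →
      Reach k ω (u ++ v)

/-- The law of the configuration: the edges are independent, those of length `1` are open with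
probability `p` and those of length `k` with probability `q`. -/
noncomputable def law (d : ℕ) (p q : unitInterval) : Measure (Conf d) :=
  Measure.infinitePi (fun e : Edge d => bernoulliMeasure true false (if e.2 = true then q else p))

/-- The probability that the cluster of the root is infinite. -/
noncomputable def theta (d k : ℕ) (p q : unitInterval) : ENNReal :=
  law d p q {ω | {w : Vert d | Reach k ω w}.Infinite}

/-- The critical curve `q_c(p) = inf {q ∈ (0,1) : θ(p,q) > 0}`, for `p ∈ [0,1]`. -/
noncomputable def qc (d k : ℕ) (p : ℝ) : ℝ :=
  sInf {q : ℝ | 0 < q ∧ q < 1 ∧ ∃ (hp : p ∈ unitInterval) (hq : q ∈ unitInterval),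
    0 < theta d k ⟨p, hp⟩ ⟨q, hq⟩}

end Pool.Agent.R962.CT
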