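import Pool.Agent.R962.CT.Tree

/-!
# Bounds for the critical curve and failure of concavity at the origin
-/

set_option autoImplicit false

namespace Pool.Agent.R962.CT

open MeasureTheory ProbabilityTheory Filter Topology

variable {d k : ℕ}

/-- The set whose infimum is the critical value. -/
def QS (d k : ℕ) (p : ℝ) : Set ℝ := {q : ℝ | 0 < q ∧ q < 1 ∧
  ∃ (hp : p ∈ unitInterval) (hq : q ∈ unitInterval), 0 < theta d k ⟨p, hp⟩ ⟨q, hq⟩}

theorem qc_eq (p : ℝ) : qc d k p = sInf (QS d k p) := rfl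

theorem QS_bdd (p : ℝ) : BddBelow (QS d k p) := ⟨0, fun _ h => h.1.le⟩

theorem QS_ne (hd : 2 ≤ d) (hk : 2 ≤ k) {p : ℝ} (hp : p ∈ unitInterval) : (QS d k p).Nonempty := by
  have hq : (3 / 4 : ℝ) ∈ unitInterval := ⟨by norm_num, by norm_num⟩
  refine ⟨3 / 4, by norm_num, by norm_num, hp, hq, ?_⟩
  have i0 : Fin d := ⟨0, by omega⟩
  apply theta_pos i0 (by omega) _ _ k
  have h1 := pi1_rec (k := k) (by omega) ⟨p, hp⟩ ⟨3 / 4, hq⟩ 0
  rw [pi1_zero, zero_add, zero_add] at h1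
  have h2 := JJ_le k ⟨p, hp⟩ ⟨3 / 4, hq⟩ (k - 1) 0
  rw [zero_add] at h2
  have h3 := pi1_nonneg k ⟨p, hp⟩ ⟨3 / 4, hq⟩ (k - 1)
  have h4 : (3 / 4 : ℝ) ≤ pi1 k ⟨p, hp⟩ ⟨3 / 4, hq⟩ k := by
    rw [h1]
    simp only
    have h5 : p * (3 / 4) * JJ k ⟨p, hp⟩ ⟨3 / 4, hq⟩ (k - 1) 0 ≤
        p * pi1 k ⟨p, hp⟩ ⟨3 / 4, hq⟩ (k - 1) := by
      have h6 : p * (3 / 4) * JJ k ⟨p, hp⟩ ⟨3 / 4, hq⟩ (k - 1) 0 ≤
          p * (3 / 4) * pi1 k ⟨p, hp⟩ ⟨3 / 4, hq⟩ (k - 1) := by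
        have := hp.1
        gcongr
      have h7 : p * (3 / 4) * pi1 k ⟨p, hp⟩ ⟨3 / 4, hq⟩ (k - 1) ≤
          p * pi1 k ⟨p, hp⟩ ⟨3 / 4, hq⟩ (k - 1) := by
        have := mul_nonneg hp.1 h3
        nlinarith
      linarith
    linarith
  have hdk : (4 : ℝ) ≤ (d : ℝ) ^ k := by
    have hd0 : (2 : ℝ) ≤ d := by exact_mod_cast hd
    calc (4 : ℝ) = 2 ^ 2 := by norm_num
      _ ≤ (d : ℝ) ^ 2 := by gcongr
      _ ≤ (d : ℝ) ^ k := by gcongr; linarith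
  nlinarith

/-- Lower bound for the critical value. -/
theorem qc_lower (hd : 2 ≤ d) (hk : 2 ≤ k) {p : ℝ} (hp0 : 0 ≤ p) (hp1 : p < 1) :
    (1 - p * d) / ((d : ℝ) ^ k * (1 - p ^ k)) ≤ qc d k p := by
  have hp : p ∈ unitInterval := ⟨hp0, hp1.le⟩
  have i0 : Fin d := ⟨0, by omega⟩
  have hd0 : (2 : ℝ) ≤ d := by exact_mod_cast hd
  rw [qc_eq]
  apply le_csInf (QS_ne hd hk hp)
  rintro q ⟨hq0, hq1, hp', hq', hθ⟩
  have hpk : p ^ k < 1 := pow_lt_one₀ hp0 hp1 (by omega)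
  rw [div_le_iff₀ (by
    have : 0 < 1 - p ^ k := by linarith
    positivity)]
  by_contra hcon
  push Not at hcon
  have h1 : p * d + q * (1 - p ^ k) * (d : ℝ) ^ k < 1 := by
    have : q * (1 - p ^ k) * (d : ℝ) ^ k = q * ((d : ℝ) ^ k * (1 - p ^ k)) := by ring
    rw [this]
    linarith
  have h2 := theta_zero i0 (by omega : 1 ≤ k) ⟨p, hp'⟩ ⟨q, hq'⟩
    (summable_below (d := d) (p := ⟨p, hp'⟩) (q := ⟨q, hq'⟩) hk h1)
  rw [h2] at hθ
  exact lt_irrefl _ hθ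

/-- Upper bound for the critical value, sharp to first order at `p = 0`. -/
theorem qc_upper (hd : 2 ≤ d) (hk : 2 ≤ k) {p : ℝ} (hp0 : 0 < p) (hp1 : 2 * (p * d) ≤ 1) :
    qc d k p ≤ (1 - p * d + 5 * p ^ 2) / (d : ℝ) ^ k := by
  have i0 : Fin d := ⟨0, by omega⟩
  have hd0 : (2 : ℝ) ≤ d := by exact_mod_cast hd
  have hdk : (4 : ℝ) ≤ (d : ℝ) ^ k := by
    calc (4 : ℝ) = 2 ^ 2 := by norm_num
      _ ≤ (d : ℝ) ^ 2 := by gcongr
      _ ≤ (d : ℝ) ^ k := by gcongr; linarith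
  have hp4 : p ≤ 1 / 4 := by nlinarith
  have hp : p ∈ unitInterval := ⟨hp0.le, by linarith⟩
  have h5 : 5 * p ^ 2 ≤ p * d := by nlinarith
  set q : ℝ := (1 - p * d + 5 * p ^ 2) / (d : ℝ) ^ k with hq
  have hnum : 0 < 1 - p * d + 5 * p ^ 2 := by nlinarith
  have hq0 : 0 < q := div_pos hnum (by linarith)
  have hqd : q * (d : ℝ) ^ k = 1 - p * d + 5 * p ^ 2 := by
    rw [hq]
    field_simp
  have hq1 : q < 1 := by
    rw [hq, div_lt_one (by linarith)]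
    linarith
  rw [qc_eq]
  apply csInf_le (QS_bdd p)
  refine ⟨hq0, hq1, hp, ⟨hq0.le, hq1.le⟩, ?_⟩
  by_contra hcon
  have hb : ∀ m, (d : ℝ) ^ m * pi1 k ⟨p, hp⟩ ⟨q, ⟨hq0.le, hq1.le⟩⟩ m ≤ 1 := by
    intro m
    by_contra hm
    push Not at hm
    exact hcon (theta_pos i0 (by omega) _ _ m hm)
  have h6 := not_above (d := d) (k := k) (p := ⟨p, hp⟩) (q := ⟨q, ⟨hq0.le, hq1.le⟩⟩) hd hk
    (by show q * (d : ℝ) ^ k ≤ 1; rw [hqd]; linarith) (by show p * (d : ℝ) ≤ 1; linarith) hb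
  have h7 : p * (d : ℝ) + q * (d : ℝ) ^ k ≤ 1 + 4 * p ^ 2 := h6
  rw [hqd] at h7
  nlinarith

/-- The critical curve is not concave on any interval `[0, δ]`. -/
theorem not_concave (hd : 2 ≤ d) (hk : 2 ≤ k) {δ : ℝ} (hδ : 0 < δ) :
    ¬ ConcaveOn ℝ (Set.Icc 0 δ) (qc d k) := by
  intro hcon
  have hd0 : (2 : ℝ) ≤ d := by exact_mod_cast hd
  have hdk : (4 : ℝ) ≤ (d : ℝ) ^ k := by
    calc (4 : ℝ) = 2 ^ 2 := by norm_num
      _ ≤ (d : ℝ) ^ 2 := by gcongr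
      _ ≤ (d : ℝ) ^ k := by gcongr; linarith
  have hdk0 : (0 : ℝ) < (d : ℝ) ^ k := by linarith
  -- the point `y`
  set y : ℝ := min δ (1 / (2 * d)) with hy
  have hy0 : 0 < y := by positivity
  have hyδ : y ≤ δ := min_le_left _ _
  have hyd : y * d ≤ 1 / 2 := by
    calc y * d ≤ (1 / (2 * d)) * d := by gcongr; exact min_le_right _ _
      _ = 1 / 2 := by field_simp
  have hy1 : y ≤ 1 / 4 := by nlinarith
  have hyk0 : 0 < y ^ k := by positivity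
  have hyk1 : y ^ k < 1 := pow_lt_one₀ hy0.le (by linarith) (by omega)
  -- the point `x`
  set x : ℝ := min y (y ^ k / 16) with hx
  have hx0 : 0 < x := by positivity
  have hxy : x ≤ y := min_le_left _ _
  have hxk : x ≤ y ^ k / 16 := min_le_right _ _
  have hup := qc_upper hd hk hx0 (by nlinarith)
  have hlo := qc_lower hd hk hy0.le (by linarith : y < 1)
  have hlo0 := qc_lower hd hk (le_refl (0 : ℝ)) (by norm_num : (0 : ℝ) < 1)
  have hzero : (0 : ℝ) ^ k = 0 := zero_pow (by omega)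
  rw [hzero] at hlo0
  have hlo0' : 1 / (d : ℝ) ^ k ≤ qc d k 0 := by
    simpa using hlo0
  -- concavity at `x = (1 - x/y) 0 + (x/y) y`
  have ha1 : (0 : ℝ) ≤ 1 - x / y := by
    have : x / y ≤ 1 := (div_le_one hy0).2 hxy
    linarith
  have hb1 : (0 : ℝ) ≤ x / y := by positivity
  have hc := hcon.2 (⟨le_rfl, hδ.le⟩ : (0 : ℝ) ∈ Set.Icc 0 δ) (⟨hy0.le, hyδ⟩ : y ∈ Set.Icc 0 δ)
    ha1 hb1 (by ring)
  simp only [smul_eq_mul, mul_zero, zero_add] at hc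
  have e1 : x / y * y = x := by field_simp
  rw [e1] at hc
  have hxy' : x / y ≤ 1 := (div_le_one hy0).2 hxy
  have hxy0 : 0 < x / y := by positivity
  -- combine
  have h1 : (1 - x / y) * (1 / (d : ℝ) ^ k) + x / y * ((1 - y * d) / ((d : ℝ) ^ k * (1 - y ^ k))) ≤
      (1 - x * d + 5 * x ^ 2) / (d : ℝ) ^ k := by
    calc (1 - x / y) * (1 / (d : ℝ) ^ k) + x / y * ((1 - y * d) / ((d : ℝ) ^ k * (1 - y ^ k))) ≤
          (1 - x / y) * qc d k 0 + x / y * qc d k y := by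
          have : 0 ≤ 1 - x / y := by linarith
          gcongr
      _ ≤ qc d k x := hc
      _ ≤ _ := hup
  have h2 : (1 - x / y) + x / y * ((1 - y * d) / (1 - y ^ k)) ≤ 1 - x * d + 5 * x ^ 2 := by
    have h3 : (1 - x / y) * (1 / (d : ℝ) ^ k) +
        x / y * ((1 - y * d) / ((d : ℝ) ^ k * (1 - y ^ k))) =
        ((1 - x / y) + x / y * ((1 - y * d) / (1 - y ^ k))) / (d : ℝ) ^ k := by
      have : 1 - y ^ k ≠ 0 := by linarith
      field_simp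
    rw [h3, div_le_div_iff_of_pos_right hdk0] at h1
    exact h1
  -- lower bound for the fraction
  have h4 : (1 - y * d) + y ^ k / 2 ≤ (1 - y * d) / (1 - y ^ k) := by
    rw [le_div_iff₀ (by linarith)]
    nlinarith
  have h5 : (1 - x / y) + x / y * ((1 - y * d) + y ^ k / 2) ≤ 1 - x * d + 5 * x ^ 2 := by
    have : x / y * ((1 - y * d) + y ^ k / 2) ≤ x / y * ((1 - y * d) / (1 - y ^ k)) := by
      gcongr
    linarith
  have h6 : (1 - x / y) + x / y * ((1 - y * d) + y ^ k / 2) = 1 - x * d + x / y * (y ^ k / 2) := by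
    field_simp
    ring
  rw [h6] at h5
  have h7 : x / y * (y ^ k / 2) ≤ 5 * x ^ 2 := by linarith
  have h8 : y ^ k / 2 ≤ 5 * x * y := by
    have h9 : x / y * (y ^ k / 2) * (y / x) ≤ 5 * x ^ 2 * (y / x) :=
      mul_le_mul_of_nonneg_right h7 (by positivity)
    have e2 : x / y * (y ^ k / 2) * (y / x) = y ^ k / 2 := by field_simp
    have e3 : 5 * x ^ 2 * (y / x) = 5 * x * y := by field_simp
    rwa [e2, e3] at h9
  nlinarith

end Pool.Agent.R962.CT
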