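import Pool.Agent.R962.CT.Defs

/-!
# Product measures on `ι → Bool`: events depending on finitely many coordinates
-/

set_option autoImplicit false

namespace Pool.Agent.R962.CT

open MeasureTheory ProbabilityTheory

/-- Product of Bernoulli measures. -/
noncomputable def pm {ι : Type} (r : ι → unitInterval) : Measure (ι → Bool) :=
  Measure.infinitePi (fun e => bernoulliMeasure true false (r e))

instance {ι : Type} (r : ι → unitInterval) : IsProbabilityMeasure (pm r) := by
  unfold pm; infer_instance

/-- The event depends only on the coordinates in `S`. -/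
def Dep {ι : Type} (S : Finset ι) (A : Set (ι → Bool)) : Prop :=
  ∀ ω ω' : ι → Bool, (∀ e ∈ S, ω e = ω' e) → (ω ∈ A ↔ ω' ∈ A)

theorem Dep.mono {ι : Type} {S T : Finset ι} {A : Set (ι → Bool)} (h : Dep S A) (hST : S ⊆ T) :
    Dep T A := fun ω ω' hω => h ω ω' (fun e he => hω e (hST he))

theorem Dep.inter {ι : Type} {S : Finset ι} {A B : Set (ι → Bool)} (hA : Dep S A) (hB : Dep S B) :
    Dep S (A ∩ B) := fun ω ω' hω => and_congr (hA ω ω' hω) (hB ω ω' hω)

theorem Dep.union {ι : Type} {S : Finset ι} {A B : Set (ι → Bool)} (hA : Dep S A) (hB : Dep S B) :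
    Dep S (A ∪ B) := fun ω ω' hω => or_congr (hA ω ω' hω) (hB ω ω' hω)

theorem Dep.compl {ι : Type} {S : Finset ι} {A : Set (ι → Bool)} (hA : Dep S A) :
    Dep S Aᶜ := fun ω ω' hω => not_congr (hA ω ω' hω)

theorem Dep.coord {ι : Type} (S : Finset ι) (e : ι) (he : e ∈ S) (b : Bool) :
    Dep S {ω : ι → Bool | ω e = b} := by
  intro ω ω' h
  show ω e = b ↔ ω' e = b
  rw [h e he]

open Classical in
/-- Extension of a finite configuration. -/
noncomputable def ext {ι : Type} (S : Finset ι) (x : S → Bool) : ι → Bool :=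
  fun e => if he : e ∈ S then x ⟨e, he⟩ else false

theorem Dep.preimage {ι : Type} {S : Finset ι} {A : Set (ι → Bool)} (h : Dep S A) :
    A = (fun (ω : ι → Bool) (e : S) => ω e) ⁻¹' {x | ext S x ∈ A} := by
  classical
  ext ω
  show ω ∈ A ↔ ext S (fun e : S => ω e) ∈ A
  apply h
  intro e he
  unfold CT.ext
  rw [dif_pos he]

theorem Dep.meas {ι : Type} {S : Finset ι} {A : Set (ι → Bool)} (h : Dep S A) :
    MeasurableSet A := by
  rw [h.preimage]
  exact (measurable_pi_lambda _ (fun e => measurable_pi_apply _)) MeasurableSet.of_discrete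

theorem Dep.indep {ι : Type} (r : ι → unitInterval) {S T : Finset ι} {A B : Set (ι → Bool)}
    (hA : Dep S A) (hB : Dep T B) (hST : Disjoint S T) :
    pm r (A ∩ B) = pm r A * pm r B := by
  have h1 : iIndepFun (fun (e : ι) (ω : ι → Bool) => ω e) (pm r) :=
    iIndepFun_infinitePi (P := fun e : ι => (bernoulliMeasure true false (r e) : Measure Bool))
      (X := fun _ b => b) (fun _ => measurable_id)
  have h2 := h1.indepFun_finset S T hST (fun e => measurable_pi_apply e)
  have h3 := h2.measure_inter_preimage_eq_mul {x | ext S x ∈ A} {x | ext T x ∈ B}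
    MeasurableSet.of_discrete MeasurableSet.of_discrete
  rw [← hA.preimage, ← hB.preimage] at h3
  exact h3

theorem pm_coord {ι : Type} (r : ι → unitInterval) (e : ι) :
    pm r {ω | ω e = true} = ENNReal.ofReal (r e : ℝ) := by
  classical
  have h1 := Measure.infinitePi_map_eval
    (fun e : ι => (bernoulliMeasure true false (r e) : Measure Bool)) e
  have h2 : pm r {ω | ω e = true} = (pm r).map (fun x => x e) {true} := by
    rw [Measure.map_apply (measurable_pi_apply e) (measurableSet_singleton _)]
    rfl
  rw [h2]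
  unfold pm
  rw [h1, bernoulliMeasure_apply _ (measurableSet_singleton _)]
  simp only [Set.mem_singleton_iff, if_true, Bool.false_eq_true, if_false]
  rw [ENNReal.ofReal]
  congr 1
  ext
  rw [Real.coe_toNNReal _ (r e).2.1]
  rfl

theorem pm_coord_real {ι : Type} (r : ι → unitInterval) (e : ι) :
    (pm r).real {ω | ω e = true} = (r e : ℝ) := by
  unfold Measure.real
  rw [pm_coord, ENNReal.toReal_ofReal (r e).2.1]

theorem Dep.indep_real {ι : Type} (r : ι → unitInterval) {S T : Finset ι} {A B : Set (ι → Bool)}
    (hA : Dep S A) (hB : Dep T B) (hST : Disjoint S T) :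
    (pm r).real (A ∩ B) = (pm r).real A * (pm r).real B := by
  unfold Measure.real
  rw [hA.indep r hB hST, ENNReal.toReal_mul]

/-- Reindexing by an injective map. -/
theorem pm_map {ι κ : Type} (r : ι → unitInterval) (g : κ → ι) (hg : Function.Injective g) :
    MeasurePreserving (fun (ω : ι → Bool) (i : κ) => ω (g i)) (pm r) (pm (fun i => r (g i))) := by
  refine ⟨measurable_pi_lambda _ (fun e => measurable_pi_apply _), ?_⟩
  exact Measure.map_infinitePi_infinitePi_of_inj
    (P := fun e : ι => (bernoulliMeasure true false (r e) : Measure Bool)) hg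

end Pool.Agent.R962.CT
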