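import Pool.Agent.R962.CT.Gen

/-!
# The one-dimensional model along a ray
-/

set_option autoImplicit false

namespace Pool.Agent.R962.CT

open MeasureTheory ProbabilityTheory

/-- Reached points of the line. -/
inductive A1 (k : ℕ) (c : ℕ × Bool → Bool) : ℕ → Prop
  | zero : A1 k c 0
  | unit (m : ℕ) : A1 k c m → c (m + 1, false) = true → A1 k c (m + 1)
  | long (m : ℕ) : A1 k c m → c (m + k, true) = true → A1 k c (m + k)

theorem A1_succ {k : ℕ} (_hk : 1 ≤ k) (c : ℕ × Bool → Bool) (m : ℕ) : A1 k c (m + 1) ↔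
    (A1 k c m ∧ c (m + 1, false) = true) ∨
      (∃ j, j + k = m + 1 ∧ A1 k c j ∧ c (m + 1, true) = true) := by
  constructor
  · intro h
    generalize hn : m + 1 = n at h
    cases h with
    | zero => omega
    | unit m' h1 h2 =>
      have : m' = m := by omega
      subst this
      exact Or.inl ⟨h1, h2⟩
    | long m' h1 h2 =>
      right
      exact ⟨m', by omega, h1, h2⟩
  · rintro (⟨h1, h2⟩ | ⟨j, h1, h2, h3⟩)
    · exact A1.unit m h1 h2
    · rw [← h1]
      rw [← h1] at h3
      exact A1.long j h2 h3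

/-- The event that `m` is reached. -/
def al (k m : ℕ) : Set (ℕ × Bool → Bool) := {c | A1 k c m}

/-- Coordinates up to `m`. -/
def bx (m : ℕ) : Finset (ℕ × Bool) := Finset.Icc 1 m ×ˢ Finset.univ

theorem mem_bx {m : ℕ} {e : ℕ × Bool} : e ∈ bx m ↔ 1 ≤ e.1 ∧ e.1 ≤ m := by
  unfold bx; simp

theorem bx_mono {m n : ℕ} (h : m ≤ n) : bx m ⊆ bx n := by
  intro e he
  rw [mem_bx] at he ⊢
  omega

theorem al_dep {k : ℕ} (hk : 1 ≤ k) (m : ℕ) : Dep (bx m) (al k m) := by
  induction m using Nat.strong_induction_on with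
  | _ m ih =>
    intro c c' h
    cases m with
    | zero => exact ⟨fun _ => A1.zero, fun _ => A1.zero⟩
    | succ m =>
      show A1 k c (m + 1) ↔ A1 k c' (m + 1)
      rw [A1_succ hk, A1_succ hk]
      have h1 := ih m (by omega) c c' (fun e he => h e (bx_mono (by omega) he))
      have h2 : c (m + 1, false) = c' (m + 1, false) := h _ (by rw [mem_bx]; simp)
      have h3 : c (m + 1, true) = c' (m + 1, true) := h _ (by rw [mem_bx]; simp)
      have h1' : A1 k c m ↔ A1 k c' m := h1
      rw [h1', h2, h3]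
      apply or_congr Iff.rfl
      apply exists_congr
      intro j
      by_cases hj : j + k = m + 1
      · have h4 : A1 k c j ↔ A1 k c' j :=
          ih j (by omega) c c' (fun e he => h e (bx_mono (by omega) he))
        rw [h4]
      · simp [hj]

/-- Parameters. -/
def rr {ι : Type} (p q : unitInterval) (e : ι × Bool) : unitInterval := if e.2 = true then q else p

/-- The law on the line. -/
noncomputable def m1 (p q : unitInterval) : Measure (ℕ × Bool → Bool) := pm (rr p q)

instance (p q : unitInterval) : IsProbabilityMeasure (m1 p q) := by unfold m1; infer_instance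

/-- Probability to reach `m`. -/
noncomputable def pi1 (k : ℕ) (p q : unitInterval) (m : ℕ) : ℝ := (m1 p q).real (al k m)

/-- Probability to reach `m + i` and `m`. -/
noncomputable def JJ (k : ℕ) (p q : unitInterval) (i m : ℕ) : ℝ :=
  (m1 p q).real (al k (m + i) ∩ al k m)

theorem pi1_nonneg (k : ℕ) (p q : unitInterval) (m : ℕ) : 0 ≤ pi1 k p q m := measureReal_nonneg

theorem JJ_nonneg (k : ℕ) (p q : unitInterval) (i m : ℕ) : 0 ≤ JJ k p q i m := measureReal_nonneg

theorem pi1_zero (k : ℕ) (p q : unitInterval) : pi1 k p q 0 = 1 := by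
  unfold pi1
  have : al k 0 = Set.univ := Set.eq_univ_of_forall (fun c => A1.zero)
  rw [this, probReal_univ]

theorem JJ_le (k : ℕ) (p q : unitInterval) (i m : ℕ) : JJ k p q i m ≤ pi1 k p q (m + i) :=
  measureReal_mono Set.inter_subset_left

/-- open unit edge -/
def EE (m : ℕ) : Set (ℕ × Bool → Bool) := {c | c (m, false) = true}

/-- open long edge -/
def FF (m : ℕ) : Set (ℕ × Bool → Bool) := {c | c (m, true) = true}

theorem EE_real (p q : unitInterval) (m : ℕ) : (m1 p q).real (EE m) = p := by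
  have := pm_coord_real (rr p q) (m, false)
  unfold m1 EE
  rw [this]
  rfl

theorem FF_real (p q : unitInterval) (m : ℕ) : (m1 p q).real (FF m) = q := by
  have := pm_coord_real (rr p q) (m, true)
  unfold m1 FF
  rw [this]
  rfl

theorem EE_dep (m : ℕ) : Dep {(m, false)} (EE m) := Dep.coord _ _ (by simp) _

theorem FF_dep (m : ℕ) : Dep {(m, true)} (FF m) := Dep.coord _ _ (by simp) _

theorem EF_dep (m : ℕ) : Dep {(m, false), (m, true)} (EE m ∩ FF m) :=
  ((EE_dep m).mono (by simp)).inter ((FF_dep m).mono (by simp))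

theorem EF_real (p q : unitInterval) (m : ℕ) : (m1 p q).real (EE m ∩ FF m) = p * q := by
  have := (EE_dep m).indep_real (rr p q) (FF_dep m) (by simp)
  have h1 := EE_real p q m
  have h2 := FF_real p q m
  unfold m1 at *
  rw [this, h1, h2]

theorem inter_EE (p q : unitInterval) {m : ℕ} {A : Set (ℕ × Bool → Bool)} (hA : Dep (bx m) A) :
    (m1 p q).real (A ∩ EE (m + 1)) = p * (m1 p q).real A := by
  have := hA.indep_real (rr p q) (EE_dep (m + 1)) (by
    rw [Finset.disjoint_singleton_right, mem_bx]; simp)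
  have h1 := EE_real p q (m + 1)
  unfold m1 at *
  rw [this, h1, mul_comm]

theorem inter_FF (p q : unitInterval) {m : ℕ} {A : Set (ℕ × Bool → Bool)} (hA : Dep (bx m) A) :
    (m1 p q).real (A ∩ FF (m + 1)) = q * (m1 p q).real A := by
  have := hA.indep_real (rr p q) (FF_dep (m + 1)) (by
    rw [Finset.disjoint_singleton_right, mem_bx]; simp)
  have h1 := FF_real p q (m + 1)
  unfold m1 at *
  rw [this, h1, mul_comm]

theorem inter_EF (p q : unitInterval) {m : ℕ} {A : Set (ℕ × Bool → Bool)} (hA : Dep (bx m) A) :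
    (m1 p q).real (A ∩ (EE (m + 1) ∩ FF (m + 1))) = p * q * (m1 p q).real A := by
  have := hA.indep_real (rr p q) (EF_dep (m + 1)) (by
    rw [Finset.disjoint_right]
    intro e he
    simp only [Finset.mem_insert, Finset.mem_singleton] at he
    rw [mem_bx]
    rcases he with rfl | rfl <;> simp)
  have h1 := EF_real p q (m + 1)
  unfold m1 at *
  rw [this, h1, mul_comm]

/-- Recursion before the first long edge. -/
theorem pi1_small {k : ℕ} (hk : 1 ≤ k) (p q : unitInterval) {m : ℕ} (hm : m + 1 < k) :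
    pi1 k p q (m + 1) = p * pi1 k p q m := by
  unfold pi1
  rw [← inter_EE p q (al_dep hk m)]
  congr 1
  ext c
  show A1 k c (m + 1) ↔ (A1 k c m ∧ c (m + 1, false) = true)
  rw [A1_succ hk]
  constructor
  · rintro (h | ⟨j, hj, _⟩)
    · exact h
    · omega
  · exact fun h => Or.inl h

theorem al_succ {k : ℕ} (hk : 1 ≤ k) (n m : ℕ) (h : n + k = m + 1) :
    al k (m + 1) = (al k m ∩ EE (m + 1)) ∪ (al k n ∩ FF (m + 1)) := by
  ext c
  show A1 k c (m + 1) ↔ (A1 k c m ∧ c (m + 1, false) = true) ∨ (A1 k c n ∧ c (m + 1, true) = true)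
  rw [A1_succ hk]
  apply or_congr Iff.rfl
  constructor
  · rintro ⟨j, hj, h1, h2⟩
    have : j = n := by omega
    subst this
    exact ⟨h1, h2⟩
  · rintro ⟨h1, h2⟩
    exact ⟨n, h, h1, h2⟩

/-- Recursion. -/
theorem pi1_rec {k : ℕ} (hk : 1 ≤ k) (p q : unitInterval) (n : ℕ) :
    pi1 k p q (n + k) = p * pi1 k p q (n + (k - 1)) + q * pi1 k p q n -
      p * q * JJ k p q (k - 1) n := by
  obtain ⟨m, hm⟩ : ∃ m, n + k = m + 1 := ⟨n + k - 1, by omega⟩
  have hm2 : n + (k - 1) = m := by omega
  unfold pi1 JJ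
  rw [hm, hm2, al_succ hk n m hm]
  have hd1 := al_dep hk m
  have hd2 : Dep (bx m) (al k n) := (al_dep hk n).mono (bx_mono (by omega))
  have h1 := inter_EE p q hd1
  have h2 := inter_FF p q hd2
  have h3 := inter_EF p q (hd1.inter hd2)
  have hmeas : MeasurableSet (al k n ∩ FF (m + 1)) :=
    hd2.meas.inter (FF_dep (m + 1)).meas
  have h4 := measureReal_union_add_inter (μ := m1 p q) (s := al k m ∩ EE (m + 1)) hmeas
  have e1 : al k m ∩ EE (m + 1) ∩ (al k n ∩ FF (m + 1)) =
      (al k m ∩ al k n) ∩ (EE (m + 1) ∩ FF (m + 1)) := Set.inter_inter_inter_comm _ _ _ _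
  rw [e1, h1, h2, h3] at h4
  linarith

/-- Inequality for the two point function, first case. -/
theorem JJ_small {k : ℕ} (hk : 1 ≤ k) (p q : unitInterval) {i m : ℕ} (hi : 1 ≤ i)
    (hm : m + i < k) : JJ k p q i m ≤ p * JJ k p q (i - 1) m := by
  unfold JJ
  obtain ⟨i', rfl⟩ : ∃ i', i = i' + 1 := ⟨i - 1, by omega⟩
  have hd : Dep (bx (m + i')) (al k (m + i') ∩ al k m) :=
    (al_dep hk _).inter ((al_dep hk m).mono (bx_mono (by omega)))
  rw [Nat.add_sub_cancel, ← inter_EE p q hd]
  refine measureReal_mono ?_ (measure_ne_top _ _)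
  rintro c ⟨h1, h2⟩
  have h1' : A1 k c (m + i' + 1) := h1
  rw [A1_succ hk] at h1'
  rcases h1' with ⟨h3, h4⟩ | ⟨j, hj, _⟩
  · exact ⟨⟨h3, h2⟩, h4⟩
  · omega

/-- Inequality for the two point function, second case. -/
theorem JJ_large {k : ℕ} (hk : 1 ≤ k) (p q : unitInterval) {i m : ℕ} (hi : 1 ≤ i) (hik : i ≤ k)
    (hm : k ≤ m + i) : JJ k p q i m ≤ p * JJ k p q (i - 1) m + q * JJ k p q (k - i) (m + i - k) := by
  unfold JJ
  obtain ⟨i', rfl⟩ : ∃ i', i = i' + 1 := ⟨i - 1, by omega⟩
  have hd : Dep (bx (m + i')) (al k (m + i') ∩ al k m) :=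
    (al_dep hk _).inter ((al_dep hk m).mono (bx_mono (by omega)))
  have hd2 : Dep (bx (m + i')) (al k m ∩ al k (m + (i' + 1) - k)) :=
    ((al_dep hk m).mono (bx_mono (by omega))).inter ((al_dep hk _).mono (bx_mono (by omega)))
  have e1 : m + (i' + 1) - k + (k - (i' + 1)) = m := by omega
  rw [Nat.add_sub_cancel, ← inter_EE p q hd, e1, ← inter_FF p q hd2]
  refine (measureReal_mono ?_ (measure_ne_top _ _)).trans (measureReal_union_le _ _)
  rintro c ⟨h1, h2⟩
  have h1' : A1 k c (m + i' + 1) := h1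
  rw [A1_succ hk] at h1'
  rcases h1' with ⟨h3, h4⟩ | ⟨j, hj, h3, h4⟩
  · exact Or.inl ⟨⟨h3, h2⟩, h4⟩
  · right
    have : j = m + (i' + 1) - k := by omega
    subst this
    exact ⟨⟨h2, h3⟩, h4⟩

/-- All unit edges from `n` to `n + j` are open. -/
def GG (n : ℕ) : ℕ → Set (ℕ × Bool → Bool)
  | 0 => Set.univ
  | j + 1 => GG n j ∩ EE (n + j + 1)

theorem GG_dep (n j : ℕ) : Dep ((Finset.Icc (n + 1) (n + j)) ×ˢ {false}) (GG n j) := by
  induction j with
  | zero => intro _ _ _; exact Iff.rfl
  | succ j ih =>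
    apply Dep.inter
    · apply ih.mono
      intro e he
      simp only [Finset.mem_product, Finset.mem_Icc, Finset.mem_singleton] at he ⊢
      exact ⟨⟨he.1.1, by omega⟩, he.2⟩
    · apply (EE_dep (n + j + 1)).mono
      intro e he
      simp only [Finset.mem_singleton] at he
      subst he
      simp only [Finset.mem_product, Finset.mem_Icc, Finset.mem_singleton]
      exact ⟨⟨by omega, by omega⟩, trivial⟩

theorem GG_real (p q : unitInterval) (n j : ℕ) : (m1 p q).real (GG n j) = (p : ℝ) ^ j := by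
  induction j with
  | zero => simp [GG]
  | succ j ih =>
    have h := (GG_dep n j).indep_real (rr p q) (EE_dep (n + j + 1)) (by
      rw [Finset.disjoint_singleton_right]
      simp)
    have h1 := EE_real p q (n + j + 1)
    unfold m1 at *
    show (pm (rr p q)).real (GG n j ∩ EE (n + j + 1)) = _
    rw [h, ih, h1]
    ring

theorem GG_A1 {k : ℕ} {c : ℕ × Bool → Bool} {n : ℕ} (h : A1 k c n) (j : ℕ) (hc : c ∈ GG n j) :
    A1 k c (n + j) := by
  induction j with
  | zero => exact h
  | succ j ih =>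
    exact A1.unit _ (ih hc.1) hc.2

/-- Upper bound. -/
theorem pi1_upper {k : ℕ} (hk : 1 ≤ k) (p q : unitInterval) (n : ℕ) :
    pi1 k p q (n + k) ≤ p * pi1 k p q (n + (k - 1)) + (q * (1 - (p : ℝ) ^ k)) * pi1 k p q n := by
  obtain ⟨m, hm⟩ : ∃ m, n + k = m + 1 := ⟨n + k - 1, by omega⟩
  have hm2 : n + (k - 1) = m := by omega
  have hd1 := al_dep hk m
  have hd2 := al_dep hk n
  -- the event that the long edge is open and not all unit edges are open
  have hG := GG_dep n k
  have hFG : (m1 p q).real (FF (m + 1) ∩ (GG n k)ᶜ) = q * (1 - (p : ℝ) ^ k) := by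
    have h := (FF_dep (m + 1)).indep_real (rr p q) hG.compl (by
      rw [Finset.disjoint_singleton_left]
      simp)
    have h1 := FF_real p q (m + 1)
    have h2 := GG_real p q n k
    have h3 := probReal_compl_eq_one_sub (μ := m1 p q) hG.meas
    rw [h2] at h3
    unfold m1 at *
    rw [h, h1, h3]
  have hdFG : Dep (Finset.Icc (n + 1) (m + 1) ×ˢ Finset.univ) (FF (m + 1) ∩ (GG n k)ᶜ) := by
    apply Dep.inter
    · apply (FF_dep (m + 1)).mono
      intro e he
      simp only [Finset.mem_singleton] at he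
      subst he
      simp only [Finset.mem_product, Finset.mem_Icc, Finset.mem_univ]
      exact ⟨⟨by omega, le_rfl⟩, trivial⟩
    · apply hG.compl.mono
      intro e he
      simp only [Finset.mem_product, Finset.mem_Icc, Finset.mem_singleton, Finset.mem_univ] at he ⊢
      exact ⟨⟨he.1.1, by omega⟩, trivial⟩
  have h5 := hd2.indep_real (rr p q) hdFG (by
    rw [Finset.disjoint_left]
    intro e he he2
    rw [mem_bx] at he
    simp only [Finset.mem_product, Finset.mem_Icc, Finset.mem_univ] at he2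
    omega)
  have h6 : (m1 p q).real (al k n ∩ (FF (m + 1) ∩ (GG n k)ᶜ)) =
      q * (1 - (p : ℝ) ^ k) * pi1 k p q n := by
    unfold pi1
    unfold m1 at *
    rw [h5, hFG, mul_comm]
  rw [← h6]
  unfold pi1
  rw [hm, hm2, ← inter_EE p q hd1]
  refine (measureReal_mono ?_ (measure_ne_top _ _)).trans (measureReal_union_le _ _)
  intro c hc
  rw [al_succ hk n m hm] at hc
  rcases hc with hc | ⟨h1, h2⟩
  · exact Or.inl hc
  · by_cases hg : c ∈ GG n k
    · left
      obtain ⟨k', rfl⟩ : ∃ k', k = k' + 1 := ⟨k - 1, by omega⟩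
      have h3 : c ∈ GG n k' := hg.1
      have h4 : c ∈ EE (n + k' + 1) := hg.2
      have h7 := GG_A1 (k := k' + 1) h1 k' h3
      have e1 : n + k' = m := by omega
      rw [e1] at h4 h7
      exact ⟨h7, h4⟩
    · right
      exact ⟨h1, h2, hg⟩

end Pool.Agent.R962.CT
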