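import Pool.Agent.R962.CT.Ana

/-!
# The tree: rays, first moments, survival
-/

set_option autoImplicit false

namespace Pool.Agent.R962.CT

open MeasureTheory ProbabilityTheory Filter Topology

variable {d k : ℕ}

theorem law_eq (p q : unitInterval) : law d p q = pm (rr p q) := rfl

instance (p q : unitInterval) : IsProbabilityMeasure (law d p q) := by
  rw [law_eq]; infer_instance

/-- A ray through `w`. -/
def ray (i0 : Fin d) (w : Vert d) (j : ℕ) : Vert d :=
  if j ≤ w.length then w.drop (w.length - j) else List.replicate (j - w.length) i0 ++ w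

theorem ray_length (i0 : Fin d) (w : Vert d) (j : ℕ) : (ray i0 w j).length = j := by
  unfold ray
  split_ifs with h
  · rw [List.length_drop]; omega
  · rw [List.length_append, List.length_replicate]; omega

theorem ray_end (i0 : Fin d) (w : Vert d) : ray i0 w w.length = w := by
  unfold ray
  simp

theorem ray_succ (i0 : Fin d) (w : Vert d) (j : ℕ) :
    ∃ i, ray i0 w (j + 1) = i :: ray i0 w j := by
  unfold ray
  by_cases h : j + 1 ≤ w.length
  · rw [if_pos h, if_pos (by omega)]
    have h1 : w.length - (j + 1) < w.length := by omega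
    refine ⟨w[w.length - (j + 1)], ?_⟩
    rw [List.drop_eq_getElem_cons h1]
    congr 2
    omega
  · rw [if_neg h]
    by_cases h2 : j ≤ w.length
    · rw [if_pos h2]
      have h3 : j = w.length := by omega
      refine ⟨i0, ?_⟩
      subst h3
      simp
    · rw [if_neg h2]
      refine ⟨i0, ?_⟩
      have : j + 1 - w.length = (j - w.length) + 1 := by omega
      rw [this, List.replicate_succ]
      rfl

theorem ray_add (i0 : Fin d) (w : Vert d) (j n : ℕ) :
    ∃ u : Vert d, u.length = n ∧ ray i0 w (j + n) = u ++ ray i0 w j := by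
  induction n with
  | zero => exact ⟨[], rfl, rfl⟩
  | succ n ih =>
    obtain ⟨u, h1, h2⟩ := ih
    obtain ⟨i, hi⟩ := ray_succ i0 w (j + n)
    refine ⟨i :: u, by simp [h1], ?_⟩
    rw [← add_assoc, hi, h2]
    rfl

theorem reach_ray (i0 : Fin d) (w : Vert d) (ω : Conf d) (j : ℕ) :
    Reach k ω (ray i0 w j) ↔ A1 k (fun e => ω (ray i0 w e.1, e.2)) j := by
  constructor
  · intro h
    generalize hv : ray i0 w j = v at h
    induction h generalizing j with
    | root =>
      have := ray_length i0 w j
      rw [hv] at this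
      simp only [List.length_nil] at this
      subst this
      exact A1.zero
    | unit i v _ h2 ih =>
      have hl := ray_length i0 w j
      rw [hv] at hl
      simp only [List.length_cons] at hl
      obtain ⟨j', rfl⟩ : ∃ j', j = j' + 1 := ⟨j - 1, by omega⟩
      obtain ⟨i', hi'⟩ := ray_succ i0 w j'
      have h3 := hv
      rw [hi', List.cons.injEq] at h3
      apply A1.unit _ (ih j' h3.2)
      show ω (ray i0 w (j' + 1), false) = true
      rw [hv]
      exact h2
    | long u v hu _ h2 ih =>
      have hl := ray_length i0 w j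
      rw [hv, List.length_append, hu] at hl
      obtain ⟨u', hu', hr⟩ := ray_add i0 w v.length k
      have hj : j = v.length + k := by omega
      subst hj
      have h3 : u ++ v = u' ++ ray i0 w v.length := by rw [← hv, hr]
      have h4 := (List.append_inj h3 (by omega)).2
      apply A1.long _ (ih v.length h4.symm)
      show ω (ray i0 w (v.length + k), true) = true
      rw [hv]
      exact h2
  · intro h
    induction h with
    | zero =>
      have : ray i0 w 0 = [] := List.length_eq_zero_iff.1 (ray_length i0 w 0)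
      rw [this]
      exact Reach.root
    | unit m _ h2 ih =>
      obtain ⟨i, hi⟩ := ray_succ i0 w m
      rw [hi]
      apply Reach.unit _ _ ih
      rw [← hi]
      exact h2
    | long m _ h2 ih =>
      obtain ⟨u, hu, hr⟩ := ray_add i0 w m k
      rw [hr]
      apply Reach.long _ _ hu ih
      rw [← hr]
      exact h2

/-- Probability to reach a vertex. -/
theorem law_reach (i0 : Fin d) (hk : 1 ≤ k) (p q : unitInterval) (w : Vert d) :
    law d p q {ω | Reach k ω w} = m1 p q (al k w.length) := by
  let G : ℕ × Bool → Edge d := fun e => (ray i0 w e.1, e.2)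
  have hG : Function.Injective G := by
    rintro ⟨a, b⟩ ⟨a', b'⟩ h
    simp only [G, Prod.mk.injEq] at h
    have h1 := ray_length i0 w a
    rw [h.1, ray_length] at h1
    rw [h1, h.2]
  have h1 := pm_map (rr p q : Edge d → unitInterval) G hG
  have h2 := h1.measure_preimage (s := al k w.length) ((al_dep hk w.length).meas.nullMeasurableSet)
  rw [law_eq]
  have e1 : {ω : Conf d | Reach k ω w} =
      (fun (ω : Conf d) (i : ℕ × Bool) => ω (G i)) ⁻¹' (al k w.length) := by
    ext ω
    show Reach k ω w ↔ A1 k (fun e => ω (ray i0 w e.1, e.2)) w.length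
    rw [← reach_ray, ray_end]
  rw [e1, h2]
  rfl

theorem law_reach_real (i0 : Fin d) (hk : 1 ≤ k) (p q : unitInterval) (w : Vert d) :
    (law d p q).real {ω | Reach k ω w} = pi1 k p q w.length := by
  unfold Measure.real pi1
  rw [law_reach i0 hk p q w]
  rfl

/-- Sum over the vertices of a function of the generation. -/
theorem tsum_vert (f : ℕ → ENNReal) :
    ∑' w : Vert d, f w.length = ∑' m : ℕ, (d : ENNReal) ^ m * f m := by
  rw [← (Equiv.sigmaFiberEquiv (List.length : Vert d → ℕ)).tsum_eq (fun w => f w.length),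
    ENNReal.tsum_sigma']
  apply tsum_congr
  intro m
  have e1 : ∀ x : {w : Vert d // w.length = m},
      f ((Equiv.sigmaFiberEquiv (List.length : Vert d → ℕ)) ⟨m, x⟩).length = f m := by
    rintro ⟨w, hw⟩
    show f w.length = f m
    rw [hw]
  rw [tsum_congr e1]
  let _ : Fintype {w : Vert d // w.length = m} :=
    inferInstanceAs (Fintype (List.Vector (Fin d) m))
  rw [tsum_fintype, Finset.sum_const, Finset.card_univ, nsmul_eq_mul]
  congr 1
  have := card_vector (α := Fin d) m
  rw [Fintype.card_fin] at this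
  exact_mod_cast this

/-- No percolation when the expected cluster size is finite. -/
theorem theta_zero (i0 : Fin d) (hk : 1 ≤ k) (p q : unitInterval)
    (h : Summable (fun m => (d : ℝ) ^ m * pi1 k p q m)) : theta d k p q = 0 := by
  have h1 : ∑' w : Vert d, law d p q {ω | Reach k ω w} ≠ ⊤ := by
    have e1 : ∀ w : Vert d, law d p q {ω | Reach k ω w} = m1 p q (al k w.length) :=
      fun w => law_reach i0 hk p q w
    rw [tsum_congr e1, tsum_vert (fun m => m1 p q (al k m))]
    have e2 : ∀ m : ℕ, (d : ENNReal) ^ m * m1 p q (al k m) =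
        ENNReal.ofReal ((d : ℝ) ^ m * pi1 k p q m) := by
      intro m
      rw [ENNReal.ofReal_mul (by positivity), ENNReal.ofReal_pow (by positivity),
        ENNReal.ofReal_natCast]
      congr 1
      unfold pi1
      exact (ENNReal.ofReal_toReal (measure_ne_top _ _)).symm
    rw [tsum_congr e2]
    exact h.tsum_ofReal_ne_top
  have h2 := ae_finite_setOfPred_mem h1
  rw [ae_iff] at h2
  exact h2

/-! ### survival -/

/-- Translated configuration. -/
def sh (u : Vert d) (ω : Conf d) : Conf d := fun e => ω (e.1 ++ u, e.2)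

theorem sh_law (p q : unitInterval) (u : Vert d) :
    MeasurePreserving (sh u) (law d p q) (law d p q) := by
  let G : Edge d → Edge d := fun e => (e.1 ++ u, e.2)
  have hG : Function.Injective G := by
    rintro ⟨a, b⟩ ⟨a', b'⟩ h
    simp only [G, Prod.mk.injEq, List.append_left_inj] at h
    rw [h.1, h.2]
  exact pm_map (rr p q : Edge d → unitInterval) G hG

theorem reach_trans {ω : Conf d} {u w : Vert d} (h1 : Reach k ω u) (h2 : Reach k (sh u ω) w) :
    Reach k ω (w ++ u) := by
  induction h2 with
  | root => exact h1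
  | unit i v _ h4 ih => exact Reach.unit i (v ++ u) ih h4
  | long u' v hu _ h4 ih =>
    rw [List.append_assoc]
    apply Reach.long u' (v ++ u) hu ih
    rw [← List.append_assoc]
    exact h4

/-- Vertices of generation `M`. -/
noncomputable def UU (d M : ℕ) : Finset (Vert d) :=
  (Finset.univ : Finset (Fin M → Fin d)).image List.ofFn

theorem mem_UU {M : ℕ} {u : Vert d} : u ∈ UU d M ↔ u.length = M := by
  unfold UU
  rw [Finset.mem_image]
  constructor
  · rintro ⟨f, _, rfl⟩
    exact List.length_ofFn
  · rintro rfl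
    exact ⟨u.get, Finset.mem_univ _, List.ofFn_get u⟩

theorem card_UU (M : ℕ) : (UU d M).card = d ^ M := by
  unfold UU
  rw [Finset.card_image_of_injective _ List.ofFn_injective, Finset.card_univ]
  simp

/-- Coordinates of the generations `1, …, N`. -/
noncomputable def Lv (d N : ℕ) : Finset (Edge d) :=
  ((Finset.Icc 1 N).biUnion (UU d)) ×ˢ Finset.univ

theorem mem_Lv {N : ℕ} {e : Edge d} : e ∈ Lv d N ↔ 1 ≤ e.1.length ∧ e.1.length ≤ N := by
  unfold Lv
  simp only [Finset.mem_product, Finset.mem_biUnion, Finset.mem_Icc, Finset.mem_univ, and_true]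
  constructor
  · rintro ⟨n, h1, h2⟩
    rw [mem_UU] at h2
    omega
  · intro h
    exact ⟨e.1.length, h, mem_UU.2 rfl⟩

theorem Lv_mono {m n : ℕ} (h : m ≤ n) : Lv d m ⊆ Lv d n := by
  intro e he
  rw [mem_Lv] at he ⊢
  omega

theorem reach_congr (hk : 1 ≤ k) {N : ℕ} {ω ω' : Conf d} (h : ∀ e ∈ Lv d N, ω e = ω' e) {v : Vert d}
    (hr : Reach k ω v) (hv : v.length ≤ N) : Reach k ω' v := by
  induction hr with
  | root => exact Reach.root
  | unit i v _ h2 ih =>
    simp only [List.length_cons] at hv
    apply Reach.unit i v (ih (by omega))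
    rw [← h _ (mem_Lv.2 (by simp only [List.length_cons]; omega))]
    exact h2
  | long u v hu _ h2 ih =>
    simp only [List.length_append] at hv
    apply Reach.long u v hu (ih (by omega))
    rw [← h _ (mem_Lv.2 (by simp only [List.length_append]; omega))]
    exact h2

theorem reach_dep (hk : 1 ≤ k) (u : Vert d) : Dep (Lv d u.length) {ω : Conf d | Reach k ω u} := by
  intro ω ω' h
  exact ⟨fun hr => reach_congr hk h hr le_rfl,
    fun hr => reach_congr hk (fun e he => (h e he).symm) hr le_rfl⟩

open Classical in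
theorem sh_dep {S : Finset (Edge d)} {A : Set (Conf d)} (hA : Dep S A) (u : Vert d) :
    Dep (S.image (fun e => (e.1 ++ u, e.2))) (sh u ⁻¹' A) := by
  intro ω ω' h
  apply hA
  intro e he
  exact h _ (Finset.mem_image_of_mem (fun e : Edge d => (e.1 ++ u, e.2)) he)

/-- Survival to generation `n * M` through the generations `M, 2 M, …`. -/
def ev (d k M : ℕ) : ℕ → Set (Conf d)
  | 0 => Set.univ
  | n + 1 => {ω | ∃ u ∈ UU d M, ω ∈ {ω | Reach k ω u} ∩ sh u ⁻¹' ev d k M n}

theorem ev_reach {M : ℕ} (n : ℕ) : ∀ ω ∈ ev d k M n, ∃ w : Vert d, w.length = n * M ∧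
    Reach k ω w := by
  induction n with
  | zero => intro ω _; exact ⟨[], by simp, Reach.root⟩
  | succ n ih =>
    rintro ω ⟨u, hu, h1, h2⟩
    obtain ⟨w, hw1, hw2⟩ := ih (sh u ω) h2
    rw [mem_UU] at hu
    refine ⟨w ++ u, ?_, reach_trans h1 hw2⟩
    rw [List.length_append, hw1, hu]
    ring

theorem ev_anti {M : ℕ} (n : ℕ) : ev d k M (n + 1) ⊆ ev d k M n := by
  induction n with
  | zero => exact Set.subset_univ _
  | succ n ih =>
    rintro ω ⟨u, hu, h1, h2⟩
    exact ⟨u, hu, h1, ih h2⟩

theorem ev_dep (hk : 1 ≤ k) {M : ℕ} (n : ℕ) : Dep (Lv d (n * M)) (ev d k M n) := by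
  classical
  induction n with
  | zero => intro _ _ _; exact Iff.rfl
  | succ n ih =>
    intro ω ω' h
    apply exists_congr
    intro u
    apply and_congr_right
    intro hu
    rw [mem_UU] at hu
    have h1 : Dep (Lv d ((n + 1) * M)) ({ω : Conf d | Reach k ω u} ∩ sh u ⁻¹' ev d k M n) := by
      apply Dep.inter
      · apply (reach_dep hk u).mono
        apply Lv_mono
        rw [hu]
        nlinarith
      · apply (sh_dep ih u).mono
        intro e he
        rw [Finset.mem_image] at he
        obtain ⟨f, hf, rfl⟩ := he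
        rw [mem_Lv] at hf ⊢
        simp only [List.length_append, hu]
        constructor
        · omega
        · have : (n + 1) * M = n * M + M := by ring
          omega
    exact h1 ω ω' h

theorem union_lower {Ω ι : Type} [MeasurableSpace Ω] (μ : Measure Ω) [IsProbabilityMeasure μ]
    (B : ι → Set Ω) (hB : ∀ i, MeasurableSet (B i)) (c : ℝ) (s : Finset ι)
    (hc : ∀ i ∈ s, ∀ j ∈ s, i ≠ j → μ.real (B i ∩ B j) ≤ c) (hc0 : 0 ≤ c) :
    ∑ i ∈ s, μ.real (B i) - (s.card : ℝ) ^ 2 * c ≤ μ.real {ω | ∃ i ∈ s, ω ∈ B i} := by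
  classical
  induction s using Finset.induction_on with
  | empty => simp
  | insert a s ha ih =>
    have h1 := ih (fun i hi j hj => hc i (Finset.mem_insert_of_mem hi) j
      (Finset.mem_insert_of_mem hj))
    have e1 : {ω | ∃ i ∈ insert a s, ω ∈ B i} = B a ∪ {ω | ∃ i ∈ s, ω ∈ B i} := by
      ext ω
      simp
    have hm : MeasurableSet {ω | ∃ i ∈ s, ω ∈ B i} := by
      have : {ω | ∃ i ∈ s, ω ∈ B i} = ⋃ i ∈ s, B i := by ext ω; simp
      rw [this]
      exact s.measurableSet_biUnion (fun i _ => hB i)
    have h2 := measureReal_union_add_inter (μ := μ) (s := B a) hm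
    have h3 : μ.real (B a ∩ {ω | ∃ i ∈ s, ω ∈ B i}) ≤ s.card * c := by
      have e2 : B a ∩ {ω | ∃ i ∈ s, ω ∈ B i} = ⋃ i ∈ s, (B a ∩ B i) := by
        ext ω; simp
      rw [e2]
      refine (measureReal_biUnion_finset_le s _).trans ?_
      calc ∑ i ∈ s, μ.real (B a ∩ B i) ≤ ∑ i ∈ s, c := by
            apply Finset.sum_le_sum
            intro i hi
            exact hc a (Finset.mem_insert_self a s) i (Finset.mem_insert_of_mem hi)
              (fun h => ha (h ▸ hi))
        _ = s.card * c := by simp
    rw [e1, Finset.sum_insert ha, Finset.card_insert_of_notMem ha]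
    push_cast
    nlinarith [Nat.cast_nonneg (α := ℝ) s.card]

/-- Percolation when some generation has expected size larger than one. -/
theorem theta_pos (i0 : Fin d) (hk : 1 ≤ k) (p q : unitInterval) (M : ℕ)
    (hM : 1 < (d : ℝ) ^ M * pi1 k p q M) : 0 < theta d k p q := by
  classical
  set a : ℝ := pi1 k p q M with ha
  set N : ℝ := (d : ℝ) ^ M with hN
  have ha1 : a ≤ 1 := measureReal_le_one
  have hd1 : 1 ≤ d := by have := i0.2; omega
  have hN1 : 1 ≤ N := one_le_pow₀ (by exact_mod_cast hd1)
  have ha0 : 0 < a := by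
    have h0 : 0 ≤ a := pi1_nonneg _ _ _ _
    rcases h0.lt_or_eq with h | h
    · exact h
    · rw [← h, mul_zero] at hM; linarith
  have hM1 : 1 ≤ M := by
    by_contra hcon
    have : M = 0 := by omega
    rw [hN, ha, this, pi1_zero] at hM
    simp at hM
  set ρ : ℕ → ℝ := fun n => (law d p q).real (ev d k M n) with hρ
  have hρ0 : ∀ n, 0 ≤ ρ n := fun n => measureReal_nonneg
  have hρ1 : ∀ n, ρ n ≤ 1 := fun n => measureReal_le_one
  -- the events of one block
  set B : ℕ → Vert d → Set (Conf d) := fun n u =>
    {ω | Reach k ω u} ∩ sh u ⁻¹' ev d k M n with hB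
  have hevm : ∀ n, MeasurableSet (ev d k M n) := fun n => (ev_dep hk n).meas
  have hshev : ∀ n u, (law d p q).real (sh u ⁻¹' ev d k M n) = ρ n := by
    intro n u
    unfold Measure.real at *
    simp only [hρ]
    rw [(sh_law p q u).measure_preimage (hevm n).nullMeasurableSet]
  have hBm : ∀ n u, MeasurableSet (B n u) := fun n u =>
    (reach_dep hk u).meas.inter ((sh_law p q u).measurable (hevm n))
  have hBp : ∀ n, ∀ u ∈ UU d M, (law d p q).real (B n u) = a * ρ n := by
    intro n u hu
    rw [mem_UU] at hu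
    have h1 := (reach_dep (k := k) hk u).indep_real (rr p q) (sh_dep (ev_dep (M := M) hk n) u) (by
      rw [Finset.disjoint_left]
      intro e he he2
      rw [Finset.mem_image] at he2
      obtain ⟨f, hf, rfl⟩ := he2
      rw [mem_Lv] at hf he
      simp only [List.length_append] at he
      omega)
    rw [← law_eq, hshev, law_reach_real i0 hk, hu] at h1
    exact h1
  have hBB : ∀ n, ∀ u ∈ UU d M, ∀ u' ∈ UU d M, u ≠ u' →
      (law d p q).real (B n u ∩ B n u') ≤ ρ n ^ 2 := by
    intro n u hu u' hu' huu
    rw [mem_UU] at hu hu'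
    have h1 := (sh_dep (ev_dep (k := k) (M := M) hk n) u).indep_real (rr p q)
      (sh_dep (ev_dep (M := M) hk n) u') (by
      rw [Finset.disjoint_left]
      intro e he he2
      rw [Finset.mem_image] at he he2
      obtain ⟨f, hf, rfl⟩ := he2
      obtain ⟨g, hg, hfg⟩ := he
      simp only [Prod.mk.injEq] at hfg
      exact huu (List.append_inj' hfg.1 (by omega)).2)
    rw [← law_eq, hshev, hshev] at h1
    rw [sq, ← h1]
    refine measureReal_mono ?_ (measure_ne_top _ _)
    rintro ω ⟨⟨_, h2⟩, ⟨_, h3⟩⟩
    exact ⟨h2, h3⟩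
  have hstep : ∀ n, N * a * ρ n - N ^ 2 * ρ n ^ 2 ≤ ρ (n + 1) := by
    intro n
    have h1 := union_lower (law d p q) (B n) (hBm n) (ρ n ^ 2) (UU d M) (hBB n) (by positivity)
    rw [Finset.sum_congr rfl (hBp n), Finset.sum_const, card_UU, nsmul_eq_mul] at h1
    push_cast at h1
    calc N * a * ρ n - N ^ 2 * ρ n ^ 2 = N * (a * ρ n) - N ^ 2 * ρ n ^ 2 := by ring
      _ ≤ _ := h1
  have hstep2 : ∀ n, a * ρ n ≤ ρ (n + 1) := by
    intro n
    have hu : List.replicate M i0 ∈ UU d M := mem_UU.2 (by simp)
    rw [← hBp n _ hu]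
    refine measureReal_mono ?_ (measure_ne_top _ _)
    intro ω hω
    exact ⟨_, hu, hω⟩
  set c : ℝ := (N * a - 1) / N ^ 2 with hc
  have hc0 : 0 < c := div_pos (by linarith) (by positivity)
  have hlow : ∀ n, a * c ≤ ρ n := by
    intro n
    induction n with
    | zero =>
      have h0 : ρ 0 = 1 := by simp only [hρ, ev, probReal_univ]
      rw [h0]
      have h1 : c ≤ 1 := by
        rw [hc, div_le_one (by positivity)]
        nlinarith
      nlinarith
    | succ n ih =>
      rcases le_total (ρ n) c with h | h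
      · have h1 := hstep n
        have h2 : N ^ 2 * ρ n ^ 2 ≤ (N * a - 1) * ρ n := by
          have h3 : N ^ 2 * ρ n ≤ N * a - 1 := by
            rw [hc, le_div_iff₀ (by positivity)] at h
            linarith
          calc N ^ 2 * ρ n ^ 2 = (N ^ 2 * ρ n) * ρ n := by ring
            _ ≤ _ := mul_le_mul_of_nonneg_right h3 (hρ0 n)
        nlinarith
      · calc a * c ≤ a * ρ n := by gcongr
          _ ≤ ρ (n + 1) := hstep2 n
  -- the limit
  have hanti : Antitone (ev d k M) := antitone_nat_of_succ_le (fun n => ev_anti n)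
  have hlim := tendsto_measure_iInter_atTop (μ := law d p q) (s := ev d k M)
    (fun n => (hevm n).nullMeasurableSet) hanti ⟨0, measure_ne_top _ _⟩
  have hge : ENNReal.ofReal (a * c) ≤ law d p q (⋂ n, ev d k M n) := by
    apply ge_of_tendsto' hlim
    intro n
    apply ENNReal.ofReal_le_of_le_toReal
    exact hlow n
  have hsub : (⋂ n, ev d k M n) ⊆ {ω | {w : Vert d | Reach k ω w}.Infinite} := by
    intro ω hω hfin
    rw [Set.mem_iInter] at hω
    obtain ⟨b, hb⟩ := (hfin.image List.length).bddAbove
    obtain ⟨w, hw1, hw2⟩ := ev_reach (b + 1) ω (hω (b + 1))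
    have h1 := hb ⟨w, hw2, rfl⟩
    rw [hw1] at h1
    nlinarith
  calc 0 < ENNReal.ofReal (a * c) := ENNReal.ofReal_pos.2 (by positivity)
    _ ≤ _ := hge
    _ ≤ theta d k p q := measure_mono hsub

end Pool.Agent.R962.CT
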